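import Pool.Agent.Y80.KK.Bound

/-!
# Kokoris algebras in locally admissible varieties

Definitions used: `IsKokoris`, `IsSimpleAlg`, `IsFieldAlg`, `Sat`, `LocallyAdmissible`
(`Pool/Agent/H551R3/KokDefs.lean`), `lpow`, `IsNilp`, `IsIdeal`, `IsPrimeAlg`, `StronglyPrime`
(`Pool/Agent/Y99/KO/Struct.lean`).

For a Kokoris algebra `A^(+)` is commutative and associative, its McCrimmon radical is the set of the
nilpotent elements, so `StronglyPrime` is the notion of the problem.
-/

set_option autoImplicit false

namespace Pool.Agent.Results.MP_b27eb5_al.NilpotentCommutators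

open Pool.Agent.H551R3.Kok Pool.Agent.Y99.KO

universe u

/-- Let `F` be any field of characteristic not two and `V` a locally admissible variety over `F`,
given by a set `T` of identities. Then there is `n` such that for every Kokoris algebra `A` in `V`:
the `n`-th powers of all commutators vanish; the nilpotent elements of `A` form an ideal modulo
which `A` is commutative and associative; if `A` is strongly prime then it is commutative,
associative and without zero divisors; and if `A` is simple then it is a field. -/
theorem result (F : Type u) [Field F] (h2 : (2 : F) ≠ 0)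
    (T : Set (FreeNonUnitalNonAssocAlgebra F ℕ)) (hT : LocallyAdmissible T) :
    ∃ n : ℕ, ∀ (A : Type u) [NonUnitalNonAssocRing A] [Module F A]
      [IsScalarTower F A A] [SMulCommClass F A A], Sat T A → IsKokoris A →
        (∀ a b : A, lpow (a * b - b * a) n = 0) ∧
        (∃ N : Submodule F A, (∀ x, x ∈ N ↔ IsNilp x) ∧ IsIdeal N ∧
          (∀ a b : A, a * b - b * a ∈ N) ∧ ∀ a b c : A, a * b * c - a * (b * c) ∈ N) ∧
        (StronglyPrime F A → (∀ a b : A, a * b = b * a) ∧
          (∀ a b c : A, a * b * c = a * (b * c)) ∧ ∀ a b : A, a * b = 0 → a = 0 ∨ b = 0) ∧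
        (IsSimpleAlg F A → IsFieldAlg A) := by
  obtain ⟨n, hn⟩ := Pool.Agent.Y80.KK.bound h2 hT
  refine ⟨n, ?_⟩
  intro A _ _ _ _ hA hK
  have : NeZero (2 : F) := ⟨h2⟩
  have : KokA A := ⟨noTwo_of_module (F := F), hK⟩
  have hnil : ∀ a b : A, Nil (br a b) := by
    intro a b
    by_contra hab
    exact Pool.Agent.Y80.KK.all_fields hA hab hT
  exact ⟨hn A hA hK, structure_of h2 hnil, stronglyPrime_of h2 hnil,
    fun hs => isFieldAlg_of_locallyAdmissible h2 hT hA hK hs⟩

end Pool.Agent.Results.MP_b27eb5_al.NilpotentCommutators
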